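import Pool.Agent.Helper91.KZ.StS

/-!
# MP_1d885e_al: module CEN (centralizers of finite subfields)
-/

namespace Pool.Agent.Helper98.KZ

open Pool.Agent.Helper91.KZ Polynomial TensorProduct

universe u

noncomputable section

/-- Wedderburn-Artin with a given simple module -/
theorem cen_wa (M R V : Type u) [Field M] [Ring R] [Algebra M R] [IsSimpleRing R]
    [IsArtinianRing R] [AddCommGroup V] [Module R V] [Module M V] [IsScalarTower M R V]
    [IsSimpleModule R V] :
    ∃ n : ℕ, 0 < n ∧ Nonempty (R ≃ₗ[R] (Fin n → V)) ∧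
      Nonempty (R ≃ₐ[M] Matrix (Fin n) (Fin n) (Module.End R V)ᵐᵒᵖ) := by
  obtain ⟨n, hn, S, hS, ⟨e⟩⟩ := (IsSimpleRing.isIsotypic R R).linearEquiv_fun
  obtain ⟨I, ⟨eI⟩⟩ := IsSemisimpleRing.exists_linearEquiv_ideal_of_isSimpleModule R V
  have hI : IsSimpleModule R I := IsSimpleModule.congr eI.symm
  obtain ⟨eS⟩ := IsSimpleRing.isIsotypic R R I S
  have e' : R ≃ₗ[R] (Fin n → V) :=
    e.trans (LinearEquiv.piCongrRight fun _ => eS.trans eI.symm)
  refine ⟨n, Nat.pos_of_ne_zero hn.out, ⟨e'⟩,
    ⟨.trans (.opOp M R) <| .trans (.op ?_) (.symm .mopMatrix)⟩⟩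
  exact .trans (.moduleEndSelf M) <| .trans (e'.conjAlgEquiv M) (endVecAlgEquivMatrixEnd ..)

/-- coordinates on `M ⊗ D` over `D` -/
theorem cen_co (E D M : Type u) [Field E] [DivisionRing D] [Algebra E D] [Field M]
    [Algebra E M] [FiniteDimensional E M] :
    ∃ e : (M ⊗[E] D) ≃+ (Fin (Module.finrank E M) → D),
      ∀ (d : D) (x : M ⊗[E] D), e (((1 : M) ⊗ₜ[E] d) * x) = d • e x := by
  let b := Module.finBasis E M
  let e₁ : (M ⊗[E] D) ≃ₗ[E] (Fin (Module.finrank E M) →₀ D) :=
    TensorProduct.equivFinsuppOfBasisLeft b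
  let e₂ : (Fin (Module.finrank E M) →₀ D) ≃ₗ[E] (Fin (Module.finrank E M) → D) :=
    Finsupp.linearEquivFunOnFinite E D (Fin (Module.finrank E M))
  refine ⟨(e₁.trans e₂).toAddEquiv, fun d x => ?_⟩
  induction x with
  | zero => simp
  | add x y hx hy =>
    rw [mul_add, map_add, map_add, hx, hy, smul_add]
  | tmul m d' =>
    ext k
    simp [e₁, e₂]

/-- `M ⊗ D` is artinian -/
theorem cen_art (E D M : Type u) [Field E] [DivisionRing D] [Algebra E D] [Field M]
    [Algebra E M] [FiniteDimensional E M] : IsArtinianRing (M ⊗[E] D) := by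
  obtain ⟨e, he⟩ := cen_co E D M
  let _ : Module D (M ⊗[E] D) :=
    Module.compHom (M ⊗[E] D)
      ((Algebra.TensorProduct.includeRight : D →ₐ[E] M ⊗[E] D) : D →+* M ⊗[E] D)
  have hs : ∀ (d : D) (x : M ⊗[E] D), d • x = ((1 : M) ⊗ₜ[E] d) * x := fun d x => rfl
  let e' : (M ⊗[E] D) ≃ₗ[D] (Fin (Module.finrank E M) → D) :=
    { e with
      map_smul' := fun d x => by
        show e (d • x) = d • e x
        rw [hs, he] }
  have : IsScalarTower D (M ⊗[E] D) (M ⊗[E] D) := ⟨fun d x y => by
    rw [hs, smul_eq_mul, hs, smul_eq_mul, mul_assoc]⟩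
  have : IsArtinian D (M ⊗[E] D) := isArtinian_of_linearEquiv e'.symm
  exact isArtinian_of_tower D this

section

variable {E D M : Type u} [Field E] [DivisionRing D] [Algebra E D] [Field M] [Algebra E M]

/-- right multiplication by the elements of the subfield -/
def cenR (i : M →ₐ[E] D) : M →ₐ[E] Module.End E D where
  toFun m := LinearMap.mulRight E (i m)
  map_one' := by ext v; simp
  map_mul' a b := by
    ext v
    simp only [LinearMap.mulRight_apply, Module.End.mul_apply]
    rw [mul_comm a b, map_mul, mul_assoc]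
  map_zero' := by ext v; simp
  map_add' a b := by ext v; simp [mul_add]
  commutes' e := by
    ext v
    simp [Algebra.algebraMap_eq_smul_one]

/-- the action of `M ⊗ D` on `D` -/
def cenP (i : M →ₐ[E] D) : M ⊗[E] D →ₐ[E] Module.End E D :=
  Algebra.TensorProduct.lift (cenR i) (Algebra.lmul E D) (by
    intro m d
    ext v
    simp [cenR, mul_assoc])

theorem cenP_apply (i : M →ₐ[E] D) (m : M) (d v : D) :
    cenP i (m ⊗ₜ[E] d) v = d * v * i m := by
  simp [cenP, cenR]

/-- `D` as a module over `M ⊗ D` -/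
def CV (_ : M →ₐ[E] D) : Type u := D

instance (i : M →ₐ[E] D) : AddCommGroup (CV i) := inferInstanceAs (AddCommGroup D)

instance (i : M →ₐ[E] D) : Nontrivial (CV i) := inferInstanceAs (Nontrivial D)

instance (i : M →ₐ[E] D) : Module (Module.End E D) (CV i) :=
  inferInstanceAs (Module (Module.End E D) D)

instance (i : M →ₐ[E] D) : Module (M ⊗[E] D) (CV i) :=
  Module.compHom (CV i) ((cenP i : M ⊗[E] D →ₐ[E] Module.End E D) :
    M ⊗[E] D →+* Module.End E D)

instance (i : M →ₐ[E] D) : Module M (CV i) :=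
  Module.compHom (CV i) ((cenR i : M →ₐ[E] Module.End E D) : M →+* Module.End E D)

/-- the identity -/
def cvi (i : M →ₐ[E] D) : D ≃+ CV i := AddEquiv.refl D

theorem cv_smul (i : M →ₐ[E] D) (m : M) (d v : D) :
    (m ⊗ₜ[E] d) • cvi i v = cvi i (d * v * i m) := cenP_apply i m d v

theorem cv_smulM (i : M →ₐ[E] D) (m : M) (v : D) :
    m • cvi i v = cvi i (v * i m) := rfl

theorem cv_surj (i : M →ₐ[E] D) (v : CV i) : ∃ d : D, cvi i d = v := ⟨v, rfl⟩

instance (i : M →ₐ[E] D) : IsScalarTower M (M ⊗[E] D) (CV i) := ⟨fun m r v => by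
  obtain ⟨v, rfl⟩ := cv_surj i v
  induction r with
  | zero => simp
  | add x y hx hy => rw [smul_add, add_smul, hx, hy, add_smul, smul_add]
  | tmul m' d =>
    rw [TensorProduct.smul_tmul', cv_smul, cv_smul, cv_smulM, smul_eq_mul, mul_comm m m',
      map_mul i, mul_assoc, mul_assoc, mul_assoc]⟩

theorem cv_simple (i : M →ₐ[E] D) : IsSimpleModule (M ⊗[E] D) (CV i) := by
  rw [isSimpleModule_iff_toSpanSingleton_surjective]
  refine ⟨inferInstance, fun x hx y => ?_⟩
  obtain ⟨v, rfl⟩ := cv_surj i x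
  obtain ⟨w, rfl⟩ := cv_surj i y
  have hv : v ≠ 0 := fun h => hx (by rw [h, map_zero])
  refine ⟨(1 : M) ⊗ₜ[E] (w * v⁻¹), ?_⟩
  rw [LinearMap.toSpanSingleton_apply, cv_smul, map_one, mul_one, mul_assoc,
    inv_mul_cancel₀ hv, mul_one]

/-- the centralizer of the subfield -/
def cenC (i : M →ₐ[E] D) : Subfield D where
  carrier := {d | ∀ m, d * i m = i m * d}
  mul_mem' := by
    intro a b ha hb m
    rw [mul_assoc, hb m, ← mul_assoc, ha m, mul_assoc]
  one_mem' := by intro m; simp
  add_mem' := by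
    intro a b ha hb m
    rw [add_mul, mul_add, ha m, hb m]
  zero_mem' := by intro m; simp
  neg_mem' := by
    intro a ha m
    rw [neg_mul, mul_neg, ha m]
  inv_mem' := by
    intro a ha m
    have : Commute a (i m) := ha m
    exact this.inv_left₀

theorem mem_cenC (i : M →ₐ[E] D) (d : D) : d ∈ cenC i ↔ ∀ m, d * i m = i m * d := Iff.rfl

/-- `M` maps to the centralizer -/
def cenM (i : M →ₐ[E] D) : M →+* cenC i :=
  (i : M →+* D).codRestrict (cenC i) (by
    intro m
    rw [mem_cenC]
    intro m'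
    rw [RingHom.coe_coe, ← map_mul, mul_comm, map_mul])

theorem cenM_coe (i : M →ₐ[E] D) (m : M) : (cenM i m : D) = i m := rfl

/-- the algebra structure on the centralizer -/
instance cenAlg (i : M →ₐ[E] D) : Algebra M (cenC i) :=
  (cenM i).toAlgebra' (by
    intro m c
    apply Subtype.ext
    exact ((mem_cenC i c).1 c.2 m).symm)

theorem cenAlg_coe (i : M →ₐ[E] D) (m : M) : (algebraMap M (cenC i) m : D) = i m := rfl

/-- right multiplication by an element of the centralizer -/
def cenE (i : M →ₐ[E] D) (c : cenC i) : Module.End (M ⊗[E] D) (CV i) where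
  toFun v := cvi i ((cvi i).symm v * c)
  map_add' v w := by rw [map_add, add_mul, map_add]
  map_smul' r v := by
    obtain ⟨v, rfl⟩ := cv_surj i v
    rw [AddEquiv.symm_apply_apply, RingHom.id_apply]
    induction r with
    | zero => simp
    | add x y hx hy => rw [add_smul, add_smul, map_add, add_mul, map_add, hx, hy]
    | tmul m d =>
      rw [cv_smul, cv_smul, AddEquiv.symm_apply_apply, mul_assoc (d * v),
        ← (mem_cenC i c).1 c.2 m, ← mul_assoc, mul_assoc d]

theorem cenE_apply (i : M →ₐ[E] D) (c : cenC i) (v : D) :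
    cenE i c (cvi i v) = cvi i (v * c) := rfl

/-- the centralizer is the opposite of the endomorphism ring -/
def cenH (i : M →ₐ[E] D) : cenC i →ₐ[M] (Module.End (M ⊗[E] D) (CV i))ᵐᵒᵖ where
  toFun c := MulOpposite.op (cenE i c)
  map_one' := by
    apply MulOpposite.unop_injective
    ext v
    obtain ⟨v, rfl⟩ := cv_surj i v
    simp [cenE_apply]
  map_mul' a b := by
    apply MulOpposite.unop_injective
    ext v
    obtain ⟨v, rfl⟩ := cv_surj i v
    simp [cenE_apply, mul_assoc]
  map_zero' := by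
    apply MulOpposite.unop_injective
    ext v
    obtain ⟨v, rfl⟩ := cv_surj i v
    simp [cenE_apply]
  map_add' a b := by
    apply MulOpposite.unop_injective
    ext v
    obtain ⟨v, rfl⟩ := cv_surj i v
    simp [cenE_apply, mul_add]
  commutes' m := by
    apply MulOpposite.unop_injective
    ext v
    obtain ⟨v, rfl⟩ := cv_surj i v
    rw [MulOpposite.unop_op, cenE_apply, cenAlg_coe]
    rfl

theorem cenH_bij (i : M →ₐ[E] D) : Function.Bijective (cenH i) := by
  constructor
  · intro a b hab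
    have h : cenE i a = cenE i b := MulOpposite.op_injective hab
    have h1 := congrArg (fun f => f (cvi i 1)) h
    simp only [cenE_apply, one_mul] at h1
    exact Subtype.ext ((cvi i).injective h1)
  · intro f
    obtain ⟨f, rfl⟩ := MulOpposite.op_surjective f
    obtain ⟨c, hc⟩ := cv_surj i (f (cvi i 1))
    have h1 : ∀ (m : M) (v : D), f (cvi i (v * i m)) = cvi i (v * c * i m) := by
      intro m v
      have := f.map_smul (m ⊗ₜ[E] v) (cvi i 1)
      rw [← hc, cv_smul, cv_smul, mul_one] at this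
      exact this
    have hC : c ∈ cenC i := by
      rw [mem_cenC]
      intro m
      have h2 := h1 m 1
      have h3 := h1 1 (i m)
      rw [map_one, mul_one, mul_one] at h3
      rw [one_mul, h3, one_mul] at h2
      exact ((cvi i).injective h2).symm
    refine ⟨⟨c, hC⟩, ?_⟩
    apply MulOpposite.unop_injective
    ext v
    obtain ⟨v, rfl⟩ := cv_surj i v
    have h3 := h1 1 v
    rw [map_one, mul_one, mul_one] at h3
    show cenE i ⟨c, hC⟩ (cvi i v) = f (cvi i v)
    rw [h3, cenE_apply]

end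

theorem CEN (hS : ST_SIM.{u}) : ST_CEN.{u} := by
  intro E D M _ _ _ _ _ _ i hD
  have hsim := hS E D M hD.cen inferInstance
  have : IsSimpleRing (M ⊗[E] D) := hsim.1
  have : IsArtinianRing (M ⊗[E] D) := cen_art E D M
  have : IsSimpleModule (M ⊗[E] D) (CV i) := cv_simple i
  obtain ⟨n, hn, ⟨e⟩, ⟨f⟩⟩ := cen_wa M (M ⊗[E] D) (CV i)
  let h : cenC i ≃ₐ[M] (Module.End (M ⊗[E] D) (CV i))ᵐᵒᵖ := AlgEquiv.ofBijective _ (cenH_bij i)
  have hnn : n = Module.finrank E M := by
    obtain ⟨g, hg⟩ := cen_co E D M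
    let e₁ : (Fin (Module.finrank E M) → D) ≃+ (Fin n → D) :=
      (g.symm.trans e.toAddEquiv).trans (AddEquiv.piCongrRight fun _ => (cvi i).symm)
    let e₂ : (Fin (Module.finrank E M) → D) ≃ₗ[D] (Fin n → D) :=
      { e₁ with
        map_smul' := by
          intro d x
          show e₁ (d • x) = d • e₁ x
          obtain ⟨x, rfl⟩ := g.surjective x
          rw [← hg]
          ext k
          simp only [e₁, AddEquiv.trans_apply, AddEquiv.symm_apply_apply]
          have h1 := e.map_smul ((1 : M) ⊗ₜ[E] d) x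
          rw [smul_eq_mul] at h1
          show (cvi i).symm (e (((1 : M) ⊗ₜ[E] d) * x) k) = d * (cvi i).symm (e x k)
          rw [h1, Pi.smul_apply]
          obtain ⟨v, hv⟩ := cv_surj i (e x k)
          rw [← hv, cv_smul, AddEquiv.symm_apply_apply, AddEquiv.symm_apply_apply, map_one,
            mul_one] }
    have := e₂.finrank_eq
    rw [Module.finrank_fin_fun, Module.finrank_fin_fun] at this
    exact this.symm
  have F : (M ⊗[E] D) ≃ₐ[M] Matrix (Fin n) (Fin n) (cenC i) := f.trans h.symm.mapMatrix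
  refine ⟨cenC i, inferInstance, cenAlg i, (cenC i).subtype, Subtype.val_injective, cenAlg_coe i,
    fun d => ?_, ⟨⟨?_, ?_⟩, ?_⟩⟩
  · rw [← mem_cenC]
    exact ⟨fun hd => ⟨⟨d, hd⟩, rfl⟩, fun ⟨c, hc⟩ => hc ▸ c.2⟩
  · intro x
    obtain ⟨p, hp, hpx⟩ := hD.alg (x : D)
    refine ⟨p.map (algebraMap E M), hp.map _, ?_⟩
    apply Subtype.val_injective
    have h1 : ((Polynomial.eval₂ (algebraMap M (cenC i)) x (p.map (algebraMap E M)) : cenC i) : D)
        = Polynomial.eval₂ (((cenC i).subtype.comp (algebraMap M (cenC i))).comp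
          (algebraMap E M)) (x : D) p := by
      rw [Polynomial.eval₂_map, RingHom.comp_assoc]
      exact Polynomial.hom_eval₂ p _ (cenC i).subtype x
    rw [h1, ZeroMemClass.coe_zero, ← hpx]
    congr 1
    ext e
    show i (algebraMap E M e) = algebraMap E D e
    exact i.commutes e
  · intro x hx
    have hc : ∀ y : M ⊗[E] D, F.symm (Matrix.scalar (Fin n) x) * y
        = y * F.symm (Matrix.scalar (Fin n) x) := by
      intro y
      obtain ⟨y, rfl⟩ := F.symm.surjective y
      rw [← map_mul, ← map_mul]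
      congr 1
      exact Matrix.scalar_commute x hx y
    obtain ⟨b, -, hb⟩ := hsim.2 _ hc
    refine ⟨b, ?_⟩
    have h2 : F (algebraMap M (M ⊗[E] D) b) = Matrix.scalar (Fin n) x := by
      rw [Algebra.TensorProduct.algebraMap_apply, Algebra.algebraMap_self_apply, hb,
        AlgEquiv.apply_symm_apply]
    rw [AlgEquiv.commutes] at h2
    have h3 := congrFun (congrFun h2 ⟨0, hn⟩) ⟨0, hn⟩
    simpa [Matrix.algebraMap_matrix_apply] using h3
  · rw [← hnn]
    exact ⟨hn, ⟨F⟩⟩

end

end Pool.Agent.Helper98.KZ
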