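import Pool.Agent.Helper91.KZ.StL

/-!
# MP_1d885e_al: module CHP (perfect fields of characteristic `p`)
-/

namespace Pool.Agent.Helper98.KZ

open Pool.Agent.Helper91.KZ Polynomial TensorProduct

universe u

noncomputable section

/-- the `p`-th power of a Skolem-Noether element is a scalar -/
theorem chp_pow (hCEN : ST_CEN.{u}) (W K T : Type u) [Field W] [DivisionRing K] [Algebra W K]
    [Field T] [Algebra W T] [FiniteDimensional W T] [IsGalois W T] (p : ℕ) (hp : p.Prime)
    (hCD : CD W K p) (hT : Module.finrank W T = p) (i : T →ₐ[W] K) (σ : T ≃ₐ[W] T) (hσ : σ ≠ 1)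
    (y : K) (hy : y ≠ 0) (hyi : ∀ t, y * i t = i (σ t) * y) :
    ∃ z : W, y ^ p = algebraMap W K z := by
  have hcard : Nat.card (T ≃ₐ[W] T) = p := by rw [IsGalois.card_aut_eq_finrank, hT]
  have hσp : σ ^ p = 1 := by rw [← hcard]; exact pow_card_eq_one'
  have hpow : ∀ (n : ℕ) (t : T), y ^ n * i t = i ((σ ^ n) t) * y ^ n := by
    intro n
    induction n with
    | zero => intro t; simp
    | succ n ih =>
      intro t
      rw [pow_succ y, mul_assoc, hyi, ← mul_assoc, ih, mul_assoc, pow_succ σ]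
      rfl
  obtain ⟨C, _, _, j, hj, hjm, hjc, hCor⟩ := hCEN W K T i hCD.1
  obtain ⟨c, hc⟩ := (hjc (y ^ p)).1 (by
    intro t
    rw [hpow, hσp]
    rfl)
  have hdim : Module.finrank T C = 1 := by
    obtain ⟨-, -, ⟨f⟩⟩ := hCor
    have h1 := f.toLinearEquiv.finrank_eq
    rw [Module.finrank_baseChange, hCD.2.2.2, hT, Module.finrank_matrix, Fintype.card_fin] at h1
    have h2 : 0 < p := hp.pos
    have h3 : p * p * Module.finrank T C = p * p * 1 := by rw [← h1]; ring
    exact Nat.eq_of_mul_eq_mul_left (Nat.mul_pos h2 h2) h3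
  obtain ⟨t₀, ht₀⟩ : ∃ t₀ : T, algebraMap T C t₀ = c := by
    have hft : (Module.finrank T C) = Module.finrank T T := by rw [hdim, Module.finrank_self]
    have hfd : FiniteDimensional T C := FiniteDimensional.of_finrank_pos (by rw [hdim]; exact one_pos)
    have h1 : Function.Surjective (Algebra.linearMap T C) :=
      (LinearMap.injective_iff_surjective_of_finrank_eq_finrank hft.symm).1
        (algebraMap T C).injective
    exact h1 c
  have hy0 : y ^ p = i t₀ := by rw [← hc, ← ht₀, hjm]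
  have hfix : σ t₀ = t₀ := by
    have h1 : y * i t₀ = i t₀ * y := by rw [← hy0]; exact (Commute.self_pow y p).eq
    rw [hyi] at h1
    exact i.injective (mul_right_cancel₀ hy h1)
  have hall : ∀ f : T ≃ₐ[W] T, f t₀ = t₀ := by
    intro f
    have : Fact p.Prime := ⟨hp⟩
    have h1 : Subgroup.zpowers σ = ⊤ := zpowers_eq_top_of_prime_card hcard hσ
    have h2 : f ∈ MulAction.stabilizer (T ≃ₐ[W] T) t₀ := by
      have h3 : Subgroup.zpowers σ ≤ MulAction.stabilizer (T ≃ₐ[W] T) t₀ := by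
        rw [Subgroup.zpowers_le]
        exact hfix
      exact h3 (h1 ▸ Subgroup.mem_top f)
    exact h2
  obtain ⟨z, hz⟩ := (IsGalois.mem_range_algebraMap_iff_fixed t₀).2 hall
  exact ⟨z, by rw [hy0, ← hz, i.commutes]⟩

theorem CHP (hSKN : ST_SKN.{u}) (hCEN : ST_CEN.{u}) : ST_CHP.{u} := by
  intro p j W _ _ hp hpW K _ _ hK
  obtain ⟨K₁, K₂, _, _, _, _, -, hCD, ⟨T, _, _, hGal, hT, ⟨i⟩⟩, -⟩ := hK
  have hfin : FiniteDimensional W T :=
    FiniteDimensional.of_finrank_pos (by rw [hT]; exact hp.pos)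
  have hcard : Nat.card (T ≃ₐ[W] T) = p := by rw [IsGalois.card_aut_eq_finrank, hT]
  have hnt : Nontrivial (T ≃ₐ[W] T) := by
    have : Finite (T ≃ₐ[W] T) := Nat.finite_of_card_ne_zero (by rw [hcard]; exact hp.ne_zero)
    rw [← Finite.one_lt_card_iff_nontrivial, hcard]
    exact hp.one_lt
  obtain ⟨σ, hσ⟩ := exists_ne (1 : T ≃ₐ[W] T)
  obtain ⟨y, hy, hyi⟩ := hSKN W K₂ T i (i.comp σ.toAlgHom) hCD.1
  have hyi' : ∀ t, y * i t = i (σ t) * y := hyi
  obtain ⟨z, hz⟩ := chp_pow hCEN W K₂ T p hp hCD hT i σ hσ y hy hyi'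
  have : Fact p.Prime := ⟨hp⟩
  have hchW : CharP W p := (CharP.charP_iff_prime_eq_zero hp).2 hpW
  have hchK : CharP K₂ p := charP_of_injective_algebraMap (algebraMap W K₂).injective p
  have hperf : PerfectRing W p := PerfectField.toPerfectRing p
  obtain ⟨w, hw⟩ := surjective_frobenius W p z
  rw [frobenius_def] at hw
  have h1 : (y - algebraMap W K₂ w) ^ p = 0 := by
    rw [sub_pow_char_of_commute p (Algebra.commutes w y).symm, hz, ← hw, map_pow, sub_self]
  have h2 : y = algebraMap W K₂ w := sub_eq_zero.1 (pow_eq_zero_iff hp.ne_zero |>.1 h1)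
  apply hσ
  ext t
  apply i.injective
  apply mul_right_cancel₀ hy
  show i (σ t) * y = i t * y
  rw [← hyi', h2, Algebra.commutes]

end

end Pool.Agent.Helper98.KZ
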