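import Pool.Agent.Helper91.KZ.StM

/-!
# MP_1d885e_al: module EHY (quotients of conjugates are norms)
-/

namespace Pool.Agent.Helper98.KZ

open Pool.Agent.Helper91.KZ Polynomial TensorProduct

universe u

noncomputable section

theorem EHY (hTWF : ST_TWF.{u}) (hKZW : ST_KZW.{u}) (hWAR : ST_WAR.{u}) : ST_EHY.{u} := by
  intro E T Δ _ _ _ _ _ _ _ _ _ p σ i y hp hT hσ hΔ d hKP W _ _ _ i₁ i₂
  have hr : ∀ k : d.Z →ₐ[E] W, aeval (k d.ζ) (minpoly E (y ^ p)) = 0 := by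
    intro k
    rw [aeval_algHom_apply, d.rt, map_zero]
  have h0 : i₂ d.ζ ≠ 0 := by
    rw [_root_.map_ne_zero]
    exact d.z0
  by_cases hne : Nonempty (T →ₐ[E] W)
  · obtain ⟨τ, hτ⟩ := ((hTWF E T W p σ hp hT hσ).1 hne).1 (i₁ d.ζ / i₂ d.ζ)
    exact ⟨τ, by rw [hτ, div_mul_cancel₀ _ h0]⟩
  · rw [not_nonempty_iff] at hne
    obtain ⟨T', _, _, σ', e, hC⟩ := (hTWF E T W p σ hp hT hσ).2 hne
    have hW : Uncountable W := (algebraMap E W).injective.uncountable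
    have hWp : PerfectField W := Algebra.IsAlgebraic.perfectField (K := E)
    have hfin := hC.fin
    have hgal := hC.gal
    have h1 := hKZW E T Δ p σ i y hp hT hσ hΔ d hKP W T' (i₁ d.ζ) σ' e (hr i₁) hC
    have h2 := hKZW E T Δ p σ i y hp hT hσ hΔ d hKP W T' (i₂ d.ζ) σ' e (hr i₂) hC
    obtain ⟨t, ht⟩ := hWAR W T' (W ⊗[E] Δ) p σ' _ _ hp hC.deg hC.ne h1 h2
    refine ⟨e.symm t, ?_⟩
    rw [ht, Algebra.norm_eq_of_algEquiv e.symm]

end

end Pool.Agent.Helper98.KZ
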