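import Pool.Agent.Helper91.KZ.StS

/-!
# MP_1d885e_al: module KPC (degrees in centralizers)
-/

namespace Pool.Agent.Helper98.KZ

open Pool.Agent.Helper91.KZ Polynomial TensorProduct

universe u

noncomputable section

/-- a finite subfield contains an element of maximal degree -/
theorem kpc_prim (E L D : Type u) [Field E] [PerfectField E] [Field L] [Algebra E L]
    [FiniteDimensional E L] [DivisionRing D] [Algebra E D] (ψ : L →ₐ[E] D) :
    ∃ y : D, dg E y = Module.finrank E L := by
  obtain ⟨θ, hθ⟩ := Field.exists_primitive_element E L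
  refine ⟨ψ θ, ?_⟩
  have h1 : minpoly E (ψ θ) = minpoly E θ := minpoly.algHom_eq ψ ψ.toRingHom.injective θ
  rw [dg, h1]
  exact (Field.primitive_element_iff_minpoly_natDegree_eq E θ).1 hθ

theorem kpc_val (E D : Type u) [Field E] [DivisionRing D] [Algebra E D] (p κ : ℕ) (hp : p.Prime)
    (hD : ∀ x : D, IsIntegral E x) (hK : KP p κ E D) (x : D) : padicValNat p (dg E x) ≤ κ := by
  have : Fact p.Prime := ⟨hp⟩
  by_contra h
  rw [not_le] at h
  exact hK x ((padicValNat_dvd_iff_le (minpoly.natDegree_pos (hD x)).ne').2 h)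

theorem KPC (hCEN : ST_CEN.{u}) (hUNI : ST_UNI.{u}) : ST_KPC.{u} := by
  intro E D M Δ _ _ _ _ _ _ _ _ _ p κ s hp hD hK ⟨i⟩ hΔ x
  obtain ⟨C, _, _, j, hj, hjm, hjc, hCor⟩ := hCEN E D M i hD
  obtain ⟨-, ⟨φ⟩⟩ := hUNI M (M ⊗[E] D) Δ C s _ hΔ.2 hCor.2
  have h1 : dg M (φ x) = dg M x := by rw [dg, dg, minpoly.algEquiv_eq]
  rw [← h1]
  generalize φ x = c
  have hint : IsIntegral M c := hCor.1.alg c
  have hirr : Irreducible (minpoly M c) := minpoly.irreducible hint
  have : Fact (Irreducible (minpoly M c)) := ⟨hirr⟩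
  have hfin : FiniteDimensional M (AdjoinRoot (minpoly M c)) :=
    (AdjoinRoot.powerBasis hirr.ne_zero).finite
  have hfr : Module.finrank M (AdjoinRoot (minpoly M c)) = dg M c := by
    rw [(AdjoinRoot.powerBasis hirr.ne_zero).finrank, AdjoinRoot.powerBasis_dim, dg]
  have hfin2 : FiniteDimensional E (AdjoinRoot (minpoly M c)) :=
    FiniteDimensional.trans E M (AdjoinRoot (minpoly M c))
  have hfr2 : Module.finrank E (AdjoinRoot (minpoly M c)) = Module.finrank E M * dg M c := by
    rw [← hfr, Module.finrank_mul_finrank]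
  let g : AdjoinRoot (minpoly M c) →+* C :=
    Ideal.Quotient.lift _ ((aeval c : M[X] →ₐ[M] C) : M[X] →+* C) (by
      intro a ha
      obtain ⟨b, rfl⟩ := Ideal.mem_span_singleton'.1 ha
      rw [RingHom.coe_coe, map_mul, minpoly.aeval, mul_zero])
  have hg : ∀ m : M, g (algebraMap M (AdjoinRoot (minpoly M c)) m) = algebraMap M C m := by
    intro m
    have : g (algebraMap M (AdjoinRoot (minpoly M c)) m) = aeval c (Polynomial.C m) := rfl
    rw [this, aeval_C]
  let ψ : AdjoinRoot (minpoly M c) →ₐ[E] D :=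
    { j.comp g with
      commutes' := by
        intro e
        show j (g (algebraMap E (AdjoinRoot (minpoly M c)) e)) = algebraMap E D e
        rw [IsScalarTower.algebraMap_apply E M (AdjoinRoot (minpoly M c)), hg, hjm, i.commutes] }
  obtain ⟨y, hy⟩ := kpc_prim E _ D ψ
  have h2 := kpc_val E D p κ hp hD.alg hK y
  have : Fact p.Prime := ⟨hp⟩
  have hd : dg M c ≠ 0 := (minpoly.natDegree_pos hint).ne'
  rw [hy, hfr2, padicValNat.mul Module.finrank_pos.ne' hd, add_comm] at h2
  exact h2

end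

end Pool.Agent.Helper98.KZ
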