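import Pool.Agent.Helper91.KZ.StS

/-!
# MP_1d885e_al: module PFS (degrees in the second factor)
-/

namespace Pool.Agent.Helper98.KZ

open Pool.Agent.Helper91.KZ Polynomial TensorProduct

universe u

noncomputable section

/-- independence in tensor products -/
theorem pfs_li (E K V : Type u) [Field E] [Ring K] [Algebra E K] [AddCommGroup V] [Module E V]
    (d : ℕ) (v : Fin d → V) (hv : LinearIndependent E v) (a : Fin d → K)
    (h : ∑ l, a l ⊗ₜ[E] v l = 0) : a = 0 := by
  ext k
  let b := Module.Basis.span hv
  obtain ⟨f, hg⟩ := LinearMap.exists_extend (b.coord k)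
  have hf : ∀ l, f (v l) = if l = k then 1 else 0 := by
    intro l
    have h1 : f (v l) = b.coord k (b l) := by
      rw [← hg, LinearMap.comp_apply, Submodule.subtype_apply, Module.Basis.span_apply]
    rw [h1, Module.Basis.coord_apply, Module.Basis.repr_self, Finsupp.single_apply]
  have h1 := congrArg (fun t => TensorProduct.rid E K (LinearMap.lTensor K f t)) h
  simp only [map_sum, LinearMap.lTensor_tmul, TensorProduct.rid_tmul, hf, map_zero] at h1
  simpa using h1

theorem PFS (hCEN : ST_CEN.{u}) : ST_PFS.{u} := by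
  intro E T K Δ' Δ _ _ _ _ _ _ _ _ _ _ p κ hΔ' hΔ ⟨i⟩ ⟨F⟩ hC x
  let i' : T →ₐ[E] Δ := (F.toAlgHom.comp Algebra.TensorProduct.includeLeft).comp i
  have hi' : ∀ t, i' t = F (i t ⊗ₜ[E] 1) := fun t => rfl
  obtain ⟨C, _, _, j, hj, hjm, hjc, hCor⟩ := hCEN E Δ T i' hΔ
  have hK := hC C _ hCor
  obtain ⟨c, hc⟩ := (hjc (F (1 ⊗ₜ[E] x))).1 (by
    intro t
    rw [hi', ← map_mul, ← map_mul]
    simp)
  have hint : IsIntegral T c := hCor.1.alg c
  have hcx : ∀ l : ℕ, j (c ^ l) = F (1 ⊗ₜ[E] (x ^ l)) := by
    intro l
    rw [map_pow, hc, ← map_pow, Algebra.TensorProduct.tmul_pow, one_pow]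
  have hΔn : Nontrivial K := by
    by_contra h
    rw [not_nontrivial_iff_subsingleton] at h
    have h1 : (1 : K ⊗[E] Δ') = 0 := by
      rw [Algebra.TensorProduct.one_def, Subsingleton.elim (1 : K) 0, zero_tmul]
    have h2 := congrArg F h1
    rw [map_one, map_zero] at h2
    exact one_ne_zero h2
  have key : dg T c = dg E x := by
    apply le_antisymm
    · have hm : ((minpoly E x).map (algebraMap E T)).Monic :=
        (minpoly.monic (hΔ'.alg x)).map _
      have h0 : aeval c ((minpoly E x).map (algebraMap E T)) = 0 := by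
        apply hj
        rw [map_zero, aeval_def, eval₂_map, hom_eval₂, hc]
        have h1 : (j.comp ((algebraMap T C).comp (algebraMap E T))) =
            (algebraMap E Δ) := by
          ext e
          show j (algebraMap T C (algebraMap E T e)) = algebraMap E Δ e
          rw [hjm]
          exact i'.commutes e
        rw [h1]
        have h2 : F ((1 : K) ⊗ₜ[E] x) =
            (F.toAlgHom.comp (Algebra.TensorProduct.includeRight : Δ' →ₐ[E] K ⊗[E] Δ')) x := rfl
        rw [h2, ← aeval_def, aeval_algHom_apply, minpoly.aeval, map_zero]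
      have h3 := natDegree_le_natDegree (minpoly.min T c hm h0)
      rwa [natDegree_map] at h3
    · by_contra hlt
      rw [not_le] at hlt
      have hlt' : (minpoly T c).natDegree < (minpoly E x).natDegree := hlt
      have h0 : ∑ l : Fin (minpoly E x).natDegree,
          (i ((minpoly T c).coeff l)) ⊗ₜ[E] (x ^ (l : ℕ)) = 0 := by
        apply F.injective
        rw [map_zero, map_sum]
        have h1 : ∀ l : Fin (minpoly E x).natDegree,
            F ((i ((minpoly T c).coeff l)) ⊗ₜ[E] (x ^ (l : ℕ))) =
              j ((minpoly T c).coeff l • c ^ (l : ℕ)) := by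
          intro l
          rw [Algebra.smul_def, map_mul, hjm, hi', hcx, ← map_mul,
            Algebra.TensorProduct.tmul_mul_tmul, mul_one, one_mul]
        rw [Finset.sum_congr rfl (fun l _ => h1 l), ← map_sum, ← map_zero j]
        congr 1
        rw [← Finset.sum_range (fun l => (minpoly T c).coeff l • c ^ l),
          ← aeval_eq_sum_range' hlt', minpoly.aeval]
      have h4 := pfs_li E K Δ' _ _ (linearIndependent_pow (K := E) x) _ h0
      have h5 := congrFun h4 ⟨_, hlt'⟩
      simp only [Pi.zero_apply] at h5
      have h6 : (minpoly T c).coeff (minpoly T c).natDegree = 1 := (minpoly.monic hint)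
      rw [h6, map_one] at h5
      exact one_ne_zero h5
  have := hK c
  rwa [key] at this

end

end Pool.Agent.Helper98.KZ
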