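import Pool.Agent.Helper91.KZ.StM

/-!
# MP_1d885e_al: module KEY (comparison of classes)
-/

namespace Pool.Agent.Helper98.KZ

open Pool.Agent.Helper91.KZ Polynomial TensorProduct

universe u

noncomputable section

theorem KEY (hTS : ST_TS.{u}) (hIDX : ST_IDX.{u}) (hKPE : ST_KPE.{u}) (hTWT : ST_TWT.{u})
    (hTWK : ST_TWK.{u}) (hTWP : ST_TWP.{u}) (hTWM : ST_TWM.{u}) (hTWC : ST_TWC.{u})
    (hPER : ST_PER.{u}) (hTRI : ST_TRI.{u}) (hCOH : ST_COH.{u}) (hMMI : ST_MMI.{u})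
    (hCS2 : ST_CS2.{u}) (hDVS : ST_DVS.{u}) : ST_KEY.{u} := by
  intro M N Y K Δ _ _ _ _ _ _ _ _ _ _ _ _ _ p b r q₁ T₁ hp hMN hK hNK hΔ hKP hY hq₁ hpq₁ hcoh
  have hN : Uncountable N := (algebraMap M N).injective.uncountable
  -- the core over `N`
  obtain ⟨s, X, iX, aX, hX, hs⟩ := hTS M Δ N hΔ
  have hs1 : s = 1 := by
    rw [hMN, Nat.dvd_prime_pow hp] at hs
    obtain ⟨c, -, rfl⟩ := hs
    have h0 := hIDX M Δ N X p 0 _ hp hΔ hKP hX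
    have : Fact p.Prime := ⟨hp⟩
    rw [padicValNat.prime_pow] at h0
    rw [Nat.le_zero.1 h0, pow_zero]
  subst hs1
  have hKX : KP p 0 N X := hKPE M Δ N X p 0 1 hΔ hKP hX
  -- the twisted modules
  obtain ⟨TD, hTD⟩ := hTWT M N Δ X hΔ hX
  have hKc : CS M K := (hCS2 M).2 K p hK
  obtain ⟨S, a, hS⟩ := hTWK M N K p hKc hNK
  obtain ⟨T', e, he⟩ := hTWP M N K Δ S TD p a hKc hS
  have hT' : ∀ g h, T'.U g h = algebraMap N T'.B (a g h) := by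
    intro g h
    apply e.injective
    rw [he, hTD, mul_one, AlgEquiv.commutes]
  obtain ⟨T₂, e₂, he₂⟩ := hTWM M N (K ⊗[M] Δ) Y r T' hY
  have hT₂ : ∀ g h, T₂.U g h = algebraMap N T₂.B (a g h) := by
    intro g h
    apply e₂.injective
    rw [he₂, hT', AlgEquiv.commutes]
  -- the core of `N ⊗ Y`
  have hNY : ∃ r', Cor N (N ⊗[M] Y) X r' := by
    obtain ⟨-, m2, -, m4, -, -⟩ := hMMI M N
    obtain ⟨m1, -, m3, -, -, m6⟩ := hMMI N N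
    obtain ⟨f⟩ := m4 Δ K
    have h1 := m3 (N ⊗[M] Δ) X (N ⊗[M] K) N p 1 hNK hX.2
    have h2 : MI N (N ⊗[N] X) X 1 :=
      (hDVS N).2.2.1 _ _ ⟨Algebra.TensorProduct.lid N X⟩
    have h3 := m1 _ _ _ _ _ h1 h2
    have h4 := m6 _ _ _ _ ⟨f.symm⟩ h3
    exact ⟨_, hX.1, m1 _ _ _ _ _ (m2 Y (K ⊗[M] Δ) r hY) h4⟩
  obtain ⟨r', hNY⟩ := hNY
  obtain ⟨q₀, hq₀, hpq₀, hC⟩ := hTWC M N Y X T₁ T₂ a r' p hNY hp hKX hS.a0 hT₂
  have c1 := hcoh (q₁ * q₀) (dvd_mul_right _ _) (Nat.mul_pos hq₁ hq₀)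
  have c2 := hC (q₁ * q₀) (dvd_mul_left _ _) (Nat.mul_pos hq₁ hq₀)
  have n1 : ∀ g h, NN N (q₁ * q₀) (T₁.U g h) ≠ 0 := by
    obtain ⟨β, hβ, hc⟩ := c1
    intro g h h0
    have h1 : NN N (q₁ * q₀) (T₁.U g h) * β (g * h) = β g * g (β h) * 1 := hc g h
    rw [h0, zero_mul, mul_one] at h1
    exact mul_ne_zero (hβ g) (by simpa using hβ h) h1.symm
  have n2 : ∀ g h, a g h ^ (q₁ * q₀) ≠ 0 := fun g h => pow_ne_zero _ (hS.a0 g h)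
  have n3 : ∀ _ _ : N ≃ₐ[M] N, (1 : N) ≠ 0 := fun _ _ => one_ne_zero
  have c3 : Coh (fun g h => a g h ^ (q₁ * q₀)) (fun _ _ => (1 : N)) :=
    (hCOH M N _ _ _ _ n2 n1 n3 n3).2.2.1 ((hCOH M N _ _ _ _ n1 n2 n3 n3).2.1 c2) c1
  have c4 := hPER M N K p S a hS
  have hcop : Nat.Coprime p (q₁ * q₀) :=
    (Nat.Prime.coprime_iff_not_dvd hp).2 (by
      intro h
      rcases (Nat.Prime.dvd_mul hp).1 h with h | h
      · exact hpq₁ h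
      · exact hpq₀ h)
  have c5 : Coh a (fun _ _ => (1 : N)) :=
    (hCOH M N a _ _ _ hS.a0 n3 n3 n3).2.2.2.2.2.2 p (q₁ * q₀) hcop c4 c3
  exact hp.one_lt.ne' (hTRI M N K p S a hK hS c5)

end

end Pool.Agent.Helper98.KZ
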